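import Pool.Agent.W186.AI.Spec

set_option autoImplicit false

/-!
# Facts on the logarithm of zeta on the half plane of absolute convergence
-/

namespace Pool.Agent.W685.AI.ZET

open Complex Filter Topology Metric Set
open scoped Real
open Pool.Agent.W186.AI

lemma norm_term (p : Nat.Primes) (s : ℂ) : ‖((p : ℕ) : ℂ) ^ (-s)‖ = ((p : ℕ) : ℝ) ^ (-s.re) := by
  rw [Complex.norm_natCast_cpow_of_pos p.2.pos, neg_re]

lemma term_le_half (p : Nat.Primes) (s : ℂ) (hs : 1 < s.re) : ‖((p : ℕ) : ℂ) ^ (-s)‖ ≤ 1 / 2 := by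
  rw [norm_term]
  have h2 : (2 : ℝ) ≤ ((p : ℕ) : ℝ) := by exact_mod_cast p.2.two_le
  calc ((p : ℕ) : ℝ) ^ (-s.re) ≤ ((p : ℕ) : ℝ) ^ (-1 : ℝ) :=
        Real.rpow_le_rpow_of_exponent_le (by linarith) (by linarith)
    _ ≤ 1 / 2 := by
        rw [Real.rpow_neg_one, one_div]
        exact inv_anti₀ (by norm_num) h2

lemma log_bound (p : Nat.Primes) (s : ℂ) (x : ℝ) (hx : 1 < x) (hs : x ≤ s.re) :
    ‖log (1 - ((p : ℕ) : ℂ) ^ (-s))‖ ≤ 3 / 2 * ((p : ℕ) : ℝ) ^ (-x) := by
  have h1 := term_le_half p s (by linarith)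
  have h2 : ‖log (1 + -((p : ℕ) : ℂ) ^ (-s))‖ ≤ 3 / 2 * ‖-((p : ℕ) : ℂ) ^ (-s)‖ :=
    Complex.norm_log_one_add_half_le_self (by rw [norm_neg]; exact h1)
  rw [← sub_eq_add_neg, norm_neg, norm_term] at h2
  refine h2.trans ?_
  have h3 : (1 : ℝ) ≤ ((p : ℕ) : ℝ) := by exact_mod_cast p.2.one_lt.le
  have := Real.rpow_le_rpow_of_exponent_le h3 (show -s.re ≤ -x by linarith)
  linarith

lemma summable_bound (x : ℝ) (hx : 1 < x) :
    Summable (fun p : Nat.Primes => 3 / 2 * ((p : ℕ) : ℝ) ^ (-x)) :=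
  (Nat.Primes.summable_rpow.2 (by linarith)).mul_left _

lemma slit (p : Nat.Primes) (s : ℂ) (hs : 1 < s.re) : 1 - ((p : ℕ) : ℂ) ^ (-s) ∈ slitPlane := by
  have h1 := term_le_half p s hs
  rw [sub_eq_add_neg]
  apply Complex.mem_slitPlane_of_norm_lt_one
  rw [norm_neg]; linarith

lemma term_diff (p : Nat.Primes) (s : ℂ) (hs : 1 < s.re) :
    DifferentiableAt ℂ (fun s : ℂ => log (1 - ((p : ℕ) : ℂ) ^ (-s))) s := by
  have h0 : ((p : ℕ) : ℂ) ≠ 0 := by exact_mod_cast p.2.ne_zero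
  apply DifferentiableAt.clog
  · exact (differentiableAt_const _).sub ((differentiableAt_id.neg).const_cpow (Or.inl h0))
  · exact slit p s hs

lemma conj_term (p : Nat.Primes) (s : ℂ) :
    1 - ((p : ℕ) : ℂ) ^ (-(starRingEnd ℂ) s) = (starRingEnd ℂ) (1 - ((p : ℕ) : ℂ) ^ (-s)) := by
  have harg : (((p : ℕ) : ℂ)).arg ≠ π := by
    rw [Complex.natCast_arg]; exact Real.pi_pos.ne
  have h := Complex.cpow_conj ((p : ℕ) : ℂ) (-s) harg
  rw [map_sub, map_one, ← map_neg, h, Complex.conj_natCast]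

theorem main : S_ZET := by
  refine ⟨?_, ?_, ?_, ?_⟩
  · intro s0 hs0
    have hs0' : 1 < s0.re := hs0
    have hx : 1 < (1 + s0.re) / 2 := by linarith
    have hopen : IsOpen {s : ℂ | (1 + s0.re) / 2 < s.re} :=
      isOpen_lt continuous_const Complex.continuous_re
    have hd : DifferentiableOn ℂ (fun s : ℂ => ∑' p : Nat.Primes, log (1 - ((p : ℕ) : ℂ) ^ (-s)))
        {s : ℂ | (1 + s0.re) / 2 < s.re} := by
      apply differentiableOn_tsum_of_summable_norm (summable_bound _ hx)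
      · intro p s hs
        exact (term_diff p s (lt_trans hx hs)).differentiableWithinAt
      · exact hopen
      · intro p s hs
        exact log_bound p s _ hx (le_of_lt hs)
    have hmem : s0 ∈ {s : ℂ | (1 + s0.re) / 2 < s.re} := by
      show (1 + s0.re) / 2 < s0.re
      linarith
    have := (hd.differentiableAt (hopen.mem_nhds hmem)).neg
    exact this.differentiableWithinAt
  · intro s hs
    have h := riemannZeta_eulerProduct_exp_log hs
    rw [← h, Z, ← tsum_neg]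
  · intro s hs
    unfold Z
    rw [map_neg, Complex.conj_tsum]
    congr 1
    apply tsum_congr
    intro p
    rw [conj_term, Complex.log_conj _ (Complex.slitPlane_arg_ne_pi (slit p s hs))]
  · intro x hx
    refine ⟨∑' p : Nat.Primes, 3 / 2 * ((p : ℕ) : ℝ) ^ (-x), ?_⟩
    intro s hs
    unfold Z
    rw [norm_neg]
    exact tsum_of_norm_bounded (summable_bound x hx).hasSum (fun p => log_bound p s x hx hs)

end Pool.Agent.W685.AI.ZET
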